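import Pool.Agent.W581.HQ.Stm

/-! Project HQ, part R3B: the second order condition along rank-one lines. -/

set_option autoImplicit false

namespace Pool.Agent.W605.HQ.R3B

open Set Filter Topology
open Pool.Agent.W581.HQ

/-- supporting line of a convex function -/
lemma exists_subgrad {f : ℝ → ℝ} (hf : ConvexOn ℝ univ f) (x : ℝ) :
    ∃ m : ℝ, ∀ y, f x + m * (y - x) ≤ f y := by
  have hne : ((fun z => (f z - f x) / (z - x)) '' Ioi x).Nonempty :=
    ⟨_, x + 1, by simp, rfl⟩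
  have hb : ∀ y, y < x → ∀ z, x < z → (f x - f y) / (x - y) ≤ (f z - f x) / (z - x) :=
    fun y hy z hz => hf.slope_mono_adjacent (mem_univ y) (mem_univ z) hy hz
  have hbdd : BddBelow ((fun z => (f z - f x) / (z - x)) '' Ioi x) :=
    ⟨(f x - f (x - 1)) / (x - (x - 1)), by
      rintro _ ⟨z, hz, rfl⟩
      exact hb (x - 1) (by linarith) z hz⟩
  refine ⟨sInf ((fun z => (f z - f x) / (z - x)) '' Ioi x), fun y => ?_⟩
  rcases lt_trichotomy y x with h | h | h
  · have h1 : (f x - f y) / (x - y) ≤ sInf ((fun z => (f z - f x) / (z - x)) '' Ioi x) := by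
      apply le_csInf hne
      rintro _ ⟨z, hz, rfl⟩
      exact hb y h z hz
    rw [div_le_iff₀ (by linarith)] at h1
    linarith
  · subst h; simp
  · have h1 : sInf ((fun z => (f z - f x) / (z - x)) '' Ioi x) ≤ (f y - f x) / (y - x) :=
      csInf_le hbdd ⟨y, h, rfl⟩
    rw [le_div_iff₀ (by linarith)] at h1
    linarith

/-- second order necessary condition -/
lemma second_order {E E1 : ℝ → ℝ} {x e2 : ℝ} (h1 : ∀ᶠ s in 𝓝 x, HasDerivAt E (E1 s) s)
    (h2 : HasDerivAt E1 e2 x) (hmin : IsLocalMin E x) : E1 x = 0 ∧ 0 ≤ e2 := by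
  have hd0 : E1 x = 0 := hmin.hasDerivAt_eq_zero h1.self_of_nhds
  refine ⟨hd0, ?_⟩
  by_contra hneg
  push Not at hneg
  have hde : deriv E =ᶠ[𝓝 x] E1 := h1.mono fun s hs => hs.deriv
  have hdd : deriv (deriv E) x = e2 := by
    rw [hde.deriv_eq, h2.deriv]
  have hmax : IsLocalMax E x := isLocalMax_of_deriv_deriv_neg (by rw [hdd]; exact hneg)
    (by rw [hde.self_of_nhds, hd0]) h1.self_of_nhds.continuousAt
  have hconst : E =ᶠ[𝓝 x] fun _ => E x := by
    filter_upwards [hmin, hmax] with s hs1 hs2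
    exact le_antisymm hs2 hs1
  have hd : deriv E =ᶠ[𝓝 x] fun _ => 0 := by
    have := hconst.deriv
    simpa using this
  have h3 : deriv (deriv E) x = 0 := by
    rw [hd.deriv_eq]; simp
  rw [hdd] at h3
  linarith

theorem main : S_R3B := by
  intro p φ hp hφ t ht z hz hline
  obtain ⟨f, hf, hfe⟩ := hline
  obtain ⟨ht1, ht2⟩ := ht
  have hzp : (0 : ℝ) < 1 + z := by linarith
  have htp : (0 : ℝ) < 1 + t := by linarith
  obtain ⟨h, hh⟩ : ∃ h, h = (z - t) / (1 + z) := ⟨_, rfl⟩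
  rw [← hh] at hfe
  have e1h : 1 - h = (1 + t) / (1 + z) := by rw [hh]; field_simp; ring
  have e2h : t + h = z * (1 + t) / (1 + z) := by rw [hh]; field_simp; ring
  have h1h : 0 < 1 - h := by rw [e1h]; positivity
  obtain ⟨A, hA⟩ : ∃ A, A = (1 - h) * (t + h) := ⟨_, rfl⟩
  -- the derivatives of `dl`
  obtain ⟨d, hd⟩ : ∃ d : ℝ → ℝ, ∀ s, d s = A / (s - h) - h := ⟨_, fun _ => rfl⟩
  have hdl : ∀ s, dl t h s = d s := by
    intro s; rw [hd, hA]; rfl
  obtain ⟨d1, hd1⟩ : ∃ d1 : ℝ → ℝ, ∀ s, d1 s = -A / (s - h) ^ 2 := ⟨_, fun _ => rfl⟩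
  have hev1 : ∀ᶠ s : ℝ in 𝓝 1, 0 < s - h := by
    have : ContinuousAt (fun s : ℝ => s - h) 1 := by fun_prop
    exact this.eventually (lt_mem_nhds h1h)
  have hev2 : ∀ᶠ s : ℝ in 𝓝 1, 0 < s := lt_mem_nhds one_pos
  have hdd : ∀ s : ℝ, 0 < s - h → HasDerivAt d (d1 s) s := by
    intro s hs
    have h3 : HasDerivAt (fun s : ℝ => A / (s - h) - h) (d1 s) s := by
      have h4 : HasDerivAt (fun s : ℝ => s - h) 1 s := (hasDerivAt_id s).sub_const h
      have h5 := ((hasDerivAt_const s A).div h4 hs.ne').sub_const h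
      refine h5.congr_deriv ?_
      rw [hd1]; ring
    exact h3.congr_of_eventuallyEq (Eventually.of_forall fun s => hd s)
  have hdd1 : HasDerivAt d1 (2 * A / (1 - h) ^ 3) 1 := by
    have h3 : HasDerivAt (fun s : ℝ => -A / (s - h) ^ 2) (2 * A / (1 - h) ^ 3) 1 := by
      have h4 : HasDerivAt (fun s : ℝ => s - h) 1 1 := (hasDerivAt_id (1 : ℝ)).sub_const h
      have h5 := (hasDerivAt_const (1 : ℝ) (-A)).div (h4.pow 2) (pow_pos h1h 2).ne'
      refine h5.congr_deriv ?_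
      simp only [Pi.pow_apply]
      field_simp
      ring
    exact h3.congr_of_eventuallyEq (Eventually.of_forall fun s => hd1 s)
  -- values at `1`
  have v0 : d 1 = t := by
    rw [hd, hA]; field_simp; ring
  have v1 : d1 1 = -z := by
    rw [hd1, hA, e2h, e1h]; field_simp
  have v2 : 2 * A / (1 - h) ^ 3 = 2 * z * (1 + z) / (1 + t) := by
    rw [hA, e2h, e1h]; field_simp
  rw [v2] at hdd1
  -- the derivatives of `u = d s / s`
  obtain ⟨u, hu⟩ : ∃ u : ℝ → ℝ, ∀ s, u s = d s / s := ⟨_, fun _ => rfl⟩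
  obtain ⟨u1, hu1⟩ : ∃ u1 : ℝ → ℝ, ∀ s, u1 s = (d1 s * s - d s) / s ^ 2 := ⟨_, fun _ => rfl⟩
  have huu : ∀ s : ℝ, 0 < s - h → 0 < s → HasDerivAt u (u1 s) s := by
    intro s hs hs0
    have h3 : HasDerivAt (fun s : ℝ => d s / s) (u1 s) s := by
      have h5 := (hdd s hs).div (hasDerivAt_id s) hs0.ne'
      refine h5.congr_deriv ?_
      rw [hu1]; simp
    exact h3.congr_of_eventuallyEq (Eventually.of_forall fun s => hu s)
  have huu1 : HasDerivAt u1 (2 * z * (1 + z) / (1 + t) + 2 * z + 2 * t) 1 := by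
    have h3 : HasDerivAt (fun s : ℝ => (d1 s * s - d s) / s ^ 2)
        (2 * z * (1 + z) / (1 + t) + 2 * z + 2 * t) 1 := by
      have h5 := ((hdd1.mul (hasDerivAt_id (1 : ℝ))).sub (hdd 1 h1h)).div
        ((hasDerivAt_id (1 : ℝ)).pow 2) (by simp)
      refine h5.congr_deriv ?_
      simp [v0, v1]
      ring
    exact h3.congr_of_eventuallyEq (Eventually.of_forall fun s => hu1 s)
  have w0 : u 1 = t := by rw [hu, v0, div_one]
  have w1 : u1 1 = -(z + t) := by rw [hu1, v0, v1]; ring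
  -- the derivatives of `φ`
  have hφ1 : ∀ s, HasDerivAt φ (deriv φ s) s := fun s =>
    (hφ.differentiable (by norm_num) s).hasDerivAt
  have hφ2 : ∀ s, HasDerivAt (deriv φ) (deriv (deriv φ) s) s := by
    have : ContDiff ℝ 1 (deriv φ) := by
      have h3 : ContDiff ℝ (1 + 1) φ := by
        have : (1 + 1 : WithTop ℕ∞) = 2 := by norm_num
        rw [this]; exact hφ
      exact (contDiff_succ_iff_deriv.1 h3).2.2
    exact fun s => (this.differentiable (by norm_num) s).hasDerivAt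
  -- the supporting line
  obtain ⟨m, hm⟩ := exists_subgrad hf ((1 - t) / 2)
  obtain ⟨E, hE⟩ : ∃ E : ℝ → ℝ, ∀ s, E s = s ^ p * φ (u s) - m * ((s - d s) / 2) :=
    ⟨_, fun _ => rfl⟩
  obtain ⟨E1, hE1⟩ : ∃ E1 : ℝ → ℝ, ∀ s, E1 s = (p * s ^ (p - 1) * φ (u s) +
      s ^ p * (deriv φ (u s) * u1 s)) - m * ((1 - d1 s) / 2) := ⟨_, fun _ => rfl⟩
  have hEE : ∀ᶠ s : ℝ in 𝓝 1, HasDerivAt E (E1 s) s := by
    filter_upwards [hev1, hev2] with s hs1 hs2
    have h3 : HasDerivAt (fun s : ℝ => s ^ p * φ (u s) - m * ((s - d s) / 2)) (E1 s) s := by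
      have k1 : HasDerivAt (fun s : ℝ => s ^ p) (p * s ^ (p - 1)) s :=
        Real.hasDerivAt_rpow_const (Or.inl hs2.ne')
      have k2 : HasDerivAt (fun s => φ (u s)) (deriv φ (u s) * u1 s) s :=
        (hφ1 (u s)).comp s (huu s hs1 hs2)
      have k3 := ((hasDerivAt_id s).sub (hdd s hs1)).div_const 2
      have k4 := (k1.mul k2).sub (k3.const_mul m)
      refine k4.congr_deriv ?_
      rw [hE1]
    exact h3.congr_of_eventuallyEq (Eventually.of_forall fun s => hE s)
  have hEE1 : HasDerivAt E1 (p * (p - 1) * φ t + p * (deriv φ t * -(z + t)) +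
      (p * (deriv φ t * -(z + t)) + (deriv (deriv φ) t * -(z + t) * -(z + t) +
        deriv φ t * (2 * z * (1 + z) / (1 + t) + 2 * z + 2 * t))) +
      m * (z * (1 + z) / (1 + t))) 1 := by
    have h3 : HasDerivAt (fun s : ℝ => (p * s ^ (p - 1) * φ (u s) +
      s ^ p * (deriv φ (u s) * u1 s)) - m * ((1 - d1 s) / 2)) (p * (p - 1) * φ t +
      p * (deriv φ t * -(z + t)) +
      (p * (deriv φ t * -(z + t)) + (deriv (deriv φ) t * -(z + t) * -(z + t) +
        deriv φ t * (2 * z * (1 + z) / (1 + t) + 2 * z + 2 * t))) +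
      m * (z * (1 + z) / (1 + t))) 1 := by
      have k1 : HasDerivAt (fun s : ℝ => s ^ p) (p * (1 : ℝ) ^ (p - 1)) 1 :=
        Real.hasDerivAt_rpow_const (Or.inl one_ne_zero)
      have k1' : HasDerivAt (fun s : ℝ => p * s ^ (p - 1)) (p * ((p - 1) * (1 : ℝ) ^ (p - 1 - 1))) 1 :=
        (Real.hasDerivAt_rpow_const (Or.inl one_ne_zero)).const_mul p
      have hu' := huu 1 h1h one_pos
      have k2 : HasDerivAt (fun s => φ (u s)) (deriv φ (u 1) * u1 1) 1 := (hφ1 (u 1)).comp 1 hu'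
      have k3 : HasDerivAt (fun s => deriv φ (u s)) (deriv (deriv φ) (u 1) * u1 1) 1 :=
        (hφ2 (u 1)).comp 1 hu'
      have k4 := ((hdd1.const_sub 1).div_const 2).const_mul m
      have k5 := ((k1'.mul k2).add (k1.mul (k3.mul huu1))).sub k4
      refine k5.congr_deriv ?_
      simp only [Pi.mul_apply, w0, w1, Real.one_rpow]
      ring
    exact h3.congr_of_eventuallyEq (Eventually.of_forall fun s => hE1 s)
  have hmin : IsLocalMin E 1 := by
    have hy1 : (1 - d 1) / 2 = (1 - t) / 2 := by rw [v0]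
    have hG1 : f ((1 - t) / 2) = (1 : ℝ) ^ p * φ (u 1) := by
      have := hfe.self_of_nhds
      rw [hdl, v0] at this
      rw [this, w0, div_one]
    filter_upwards [hfe] with s hs
    rw [hdl] at hs
    have h3 := hm ((s - d s) / 2)
    rw [hs, hG1] at h3
    rw [hE, hE, v0]
    rw [← hu s] at h3
    linarith
  obtain ⟨r1, r2⟩ := second_order hEE hEE1 hmin
  rw [hE1, w0, w1, v1, Real.one_rpow, Real.one_rpow] at r1
  have hmv : m * (1 + z) = 2 * (p * φ t - (z + t) * deriv φ t) := by linarith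
  have hmv2 : m * (z * (1 + z) / (1 + t)) =
      2 * z * (p * φ t - (z + t) * deriv φ t) / (1 + t) := by
    calc m * (z * (1 + z) / (1 + t)) = z * (m * (1 + z)) / (1 + t) := by ring
      _ = _ := by rw [hmv]; ring
  rw [hmv2] at r2
  refine r2.trans (le_of_eq ?_)
  unfold KK
  field_simp
  ring

end Pool.Agent.W605.HQ.R3B
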